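import Mathlib

/-!
# The number `P_9 ^ 2 + 1` is not squarefree (MP_80b119_nt)

`P_n` is the product of the first `n` primes.  For `n = 9` one has
`P_9 = 2 * 3 * 5 * 7 * 11 * 13 * 17 * 19 * 23 = 223092870`, and `29 ^ 2` divides `P_9 ^ 2 + 1`.
-/

namespace Pool.Agent.Results.MP_80b119_nt.NotSquarefree

/-- The product of the first `n` primes (`Nat.nth Nat.Prime k` is the prime with index `k`,
counted from `0`). -/
noncomputable def P (n : ℕ) : ℕ := ∏ k ∈ Finset.range n, Nat.nth Nat.Prime k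

lemma nth_eq (k p : ℕ) (hp : p.Prime) (hc : Nat.count Nat.Prime p = k) :
    Nat.nth Nat.Prime k = p := by
  rw [← hc]; exact Nat.nth_count hp

lemma P_nine : P 9 = 223092870 := by
  have h0 : Nat.nth Nat.Prime 0 = 2 := nth_eq 0 2 (by norm_num) (by decide)
  have h1 : Nat.nth Nat.Prime 1 = 3 := nth_eq 1 3 (by norm_num) (by decide)
  have h2 : Nat.nth Nat.Prime 2 = 5 := nth_eq 2 5 (by norm_num) (by decide)
  have h3 : Nat.nth Nat.Prime 3 = 7 := nth_eq 3 7 (by norm_num) (by decide)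
  have h4 : Nat.nth Nat.Prime 4 = 11 := nth_eq 4 11 (by norm_num) (by decide)
  have h5 : Nat.nth Nat.Prime 5 = 13 := nth_eq 5 13 (by norm_num) (by decide)
  have h6 : Nat.nth Nat.Prime 6 = 17 := nth_eq 6 17 (by norm_num) (by decide)
  have h7 : Nat.nth Nat.Prime 7 = 19 := nth_eq 7 19 (by norm_num) (by decide)
  have h8 : Nat.nth Nat.Prime 8 = 23 := nth_eq 8 23 (by norm_num) (by decide)
  simp only [P, Finset.prod_range_succ, Finset.prod_range_zero, h0, h1, h2, h3, h4, h5, h6, h7,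
    h8]
  norm_num

/-- The square of the prime `29` divides `P_9 ^ 2 + 1`, so not every `P_n ^ 2 + 1` is
squarefree. -/
theorem result :
    (29 ^ 2 ∣ P 9 ^ 2 + 1 ∧ Nat.Prime 29) ∧ ¬ ∀ n : ℕ, Squarefree (P n ^ 2 + 1) := by
  have hd : 29 ^ 2 ∣ P 9 ^ 2 + 1 := by rw [P_nine]; norm_num
  refine ⟨⟨hd, by norm_num⟩, fun h => ?_⟩
  have h1 := h 9 29 (by rw [← pow_two]; exact hd)
  have h2 : (29 : ℕ) = 1 := Nat.isUnit_iff.1 h1
  omega

end Pool.Agent.Results.MP_80b119_nt.NotSquarefree
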